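import Mathlib
import Pool.Agent.H857R2.NC.All

/-!
Azagra's question has a positive answer for every smoothness `k ≥ 2`, `k = ∞` included.
-/

set_option autoImplicit false

open Filter Topology Set

universe u

namespace Pool.Agent.Results.MP_8d41d4_an.PositiveForKGeTwo

variable {X : Type u} [NormedAddCommGroup X] [NormedSpace ℝ X]

/-- The seminorm `N` is a norm on `X` equivalent to the given norm. -/
def IsEquivalentNorm (N : Seminorm ℝ X) : Prop :=
  (∃ a : ℝ, 0 < a ∧ ∀ x, a * ‖x‖ ≤ N x) ∧ ∃ b : ℝ, 0 < b ∧ ∀ x, N x ≤ b * ‖x‖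

/-- `p` is a norm on the vector space `X` (not necessarily equivalent to the given one). -/
def IsNorm (p : Seminorm ℝ X) : Prop := ∀ x, p x = 0 → x = 0

/-- `p` is `C^k`-smooth (`k` a natural number or `∞`): its restriction to `X \ {0}` is `C^k` for
the topology of the given norm of `X`. -/
def IsSmooth (k : ℕ∞) (p : Seminorm ℝ X) : Prop := ContDiffOn ℝ k p {x | x ≠ 0}

/-- `(X, p)` is complete: every `p`-Cauchy sequence `p`-converges. -/
def IsCompleteFor (p : Seminorm ℝ X) : Prop :=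
  ∀ v : ℕ → X, (∀ ε : ℝ, 0 < ε → ∃ M, ∀ m ≥ M, ∀ n ≥ M, p (v m - v n) < ε) →
    ∃ x, ∀ ε : ℝ, 0 < ε → ∃ M, ∀ n ≥ M, p (v n - x) < ε

/-- Let `k ≥ 2` be an integer or `∞` and let `X` be an infinite-dimensional Banach space with an
equivalent `C^k`-smooth norm. Then `X` has a `C^k`-smooth norm `p` such that `(X, p)` is not
complete. -/
theorem result (k : ℕ∞) (hk : 2 ≤ k) (X : Type u) [NormedAddCommGroup X] [NormedSpace ℝ X]
    [CompleteSpace X] (hX : ¬ FiniteDimensional ℝ X)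
    (hN : ∃ N : Seminorm ℝ X, IsEquivalentNorm N ∧ IsSmooth k N) :
    ∃ p : Seminorm ℝ X, IsNorm p ∧ IsSmooth k p ∧ ¬ IsCompleteFor p := by
  obtain ⟨N, hN, hs⟩ := hN
  obtain ⟨p, hp0, hps, v, hv1, hv2⟩ :=
    H857NC.part_ge_two H857NC.all k hk hX N ⟨hN.2, hN.1⟩ hs
  exact ⟨p, hp0, hps, fun h => hv2 (h v hv1)⟩

end Pool.Agent.Results.MP_8d41d4_an.PositiveForKGeTwo
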